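import Mathlib

namespace Pool.Agent.Results.MP_8fb7e7_co.Yes

open Finset

/-- independence number: largest size of a vertex set containing no edge. -/
def alpha {n : ℕ} (E : Finset (Finset (Fin n))) : ℕ :=
  (univ.filter fun S : Finset (Fin n) => ∀ e ∈ E, ¬ e ⊆ S).sup card

theorem half {V : Type} [DecidableEq V] (dom : Finset V → V → Prop) (a : ℕ)
    (hN : ∀ T N : Finset V, N ⊆ T → (∀ u ∈ N, ¬ dom (T.erase u) u) → N.card ≤ a)
    (U : Finset V) (hU : 2 * a < U.card) :
    ∃ T ⊆ U, T.card = 2 * a ∧ ∃ B ⊆ U, 2 * B.card ≤ U.card ∧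
      ∀ u ∈ U, u ∈ T ∨ dom T u ∨ u ∈ B := by
  classical
  let B : Finset V → Finset V := fun T => (U \ T).filter fun u => ¬ dom T u
  have h1 : ((powersetCard (2 * a) U).sigma B).card ≤
      ((powersetCard (2 * a + 1) U).sigma fun T => T.filter fun u => ¬ dom (T.erase u) u).card := by
    refine card_le_card_of_injOn (fun q => ⟨insert q.2 q.1, q.2⟩) ?_ ?_
    · rintro ⟨T, u⟩ hq
      simp only [B, coe_sigma, Set.mem_sigma_iff, mem_coe, mem_powersetCard, mem_filter,
        mem_sdiff] at hq ⊢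
      obtain ⟨⟨h1, h2⟩, ⟨h3, h4⟩, h5⟩ := hq
      exact ⟨⟨insert_subset h3 h1, by rw [card_insert_of_notMem h4, h2]⟩, mem_insert_self _ _,
        by rwa [erase_insert h4]⟩
    · rintro ⟨T, u⟩ hq ⟨T', u'⟩ hq' e
      simp only [B, coe_sigma, Set.mem_sigma_iff, mem_coe, mem_powersetCard, mem_filter,
        mem_sdiff] at hq hq'
      simp only [Sigma.mk.injEq, heq_eq_eq] at e
      obtain ⟨e1, rfl⟩ := e
      obtain rfl : T = T' := by rw [← erase_insert hq.2.1.2, e1, erase_insert hq'.2.1.2]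
      rfl
  rw [card_sigma, card_sigma] at h1
  have h2 := sum_le_card_nsmul (powersetCard (2 * a + 1) U)
    (fun T => (T.filter fun u => ¬ dom (T.erase u) u).card) a fun T _ =>
      hN T _ (filter_subset _ _) fun u hu => (mem_filter.1 hu).2
  rw [card_powersetCard, smul_eq_mul] at h2
  have h3 := Nat.choose_succ_right_eq U.card (2 * a)
  obtain ⟨T, hT, h4⟩ := exists_le_of_sum_le (s := powersetCard (2 * a) U)
    (powersetCard_nonempty.2 hU.le) (f := fun T => 2 * (B T).card) (g := fun _ => U.card) (by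
      rw [← mul_sum, sum_const, card_powersetCard, smul_eq_mul]
      have : U.card.choose (2 * a) * (U.card - 2 * a) ≤ U.card.choose (2 * a) * U.card :=
        Nat.mul_le_mul_left _ (Nat.sub_le _ _)
      nlinarith)
  rw [mem_powersetCard] at hT
  refine ⟨T, hT.1, hT.2, B T, (filter_subset _ _).trans sdiff_subset, h4, fun u hu => ?_⟩
  simp only [B, mem_filter, mem_sdiff]
  tauto

theorem iter {V : Type} [DecidableEq V] (dom : Finset V → V → Prop) (a : ℕ) (ha : 1 ≤ a)
    (hm : ∀ S S' u, S ⊆ S' → dom S u → dom S' u)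
    (hN : ∀ T N : Finset V, N ⊆ T → (∀ u ∈ N, ¬ dom (T.erase u) u) → N.card ≤ a) (j : ℕ) :
    ∀ U : Finset V, U.card ≤ 2 ^ j →
      ∃ S : Finset V, S.card ≤ 2 * a * (j + 1) ∧ ∀ u ∈ U, u ∈ S ∨ dom S u := by
  induction j with
  | zero => exact fun U hU => ⟨U, by omega, fun u hu => Or.inl hu⟩
  | succ j ih =>
    intro U hU
    rcases le_or_gt U.card (2 * a) with h | h
    · exact ⟨U, by nlinarith, fun u hu => Or.inl hu⟩
    · obtain ⟨T, -, h1, B, -, h2, h3⟩ := half dom a hN U h
      obtain ⟨S, h4, h5⟩ := ih B (by rw [pow_succ] at hU; omega)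
      refine ⟨T ∪ S, (card_union_le _ _).trans (by nlinarith), fun u hu => ?_⟩
      rcases h3 u hu with h | h | h
      · exact Or.inl (mem_union_left _ h)
      · exact Or.inr (hm _ _ _ subset_union_left h)
      · rcases h5 u h with h | h
        · exact Or.inl (mem_union_right _ h)
        · exact Or.inr (hm _ _ _ subset_union_right h)

theorem result (r p : ℕ) (hp : 1 ≤ p) (hr : p + 1 ≤ r) : ∃ c : ℝ, 0 < c ∧ ∀ n : ℕ, 2 ≤ n →
    ∀ E : Finset (Finset (Fin n)), (∀ e ∈ E, e.card = r) →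
      ∀ D : Finset (Fin n) → Fin r → Fin n, (∀ e ∈ E, univ.image (D e) = e) →
        ∃ S : Finset (Fin n),
          (∀ u, u ∉ S → ∃ e ∈ E, u ∈ e ∧ ∀ i : Fin r, i.val < p → D e i ∈ S) ∧
            (S.card : ℝ) ≤ c * alpha E * Real.log n := by
  have l2 : 0 < Real.log 2 := Real.log_pos (by norm_num)
  refine ⟨6 / Real.log 2, by positivity, fun n hn E hE D hD => ?_⟩
  have hle : ∀ N : Finset (Fin n), (∀ e ∈ E, ¬ e ⊆ N) → N.card ≤ alpha E := fun N h =>
    le_sup (f := card) (mem_filter.2 ⟨mem_univ _, h⟩)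
  have ha : 1 ≤ alpha E := by
    refine le_trans (by simp) (hle {⟨0, by omega⟩} fun e he h => ?_)
    have := card_le_card h
    rw [hE e he, card_singleton] at this
    omega
  obtain ⟨S, h1, h2⟩ := iter
    (fun S u => ∃ e ∈ E, u ∈ e ∧ ∀ i : Fin r, i.val < p → D e i ∈ S) (alpha E) ha
    (fun S S' u h ⟨e, a, b, c⟩ => ⟨e, a, b, fun i hi => h (c i hi)⟩)
    (fun T N hNT h => hle N fun e he hs => by
      have hm : ∀ i, D e i ∈ e := fun i => by
        have := mem_image_of_mem (D e) (mem_univ i)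
        rwa [hD e he] at this
      have hi : Set.InjOn (D e) (univ : Finset (Fin r)) :=
        card_image_iff.1 (by rw [hD e he, hE e he]; simp)
      refine h (D e ⟨p, by omega⟩) (hs (hm _)) ⟨e, he, hm _, fun i hi' => ?_⟩
      refine mem_erase.2 ⟨fun c => ?_, hNT (hs (hm i))⟩
      have := congrArg Fin.val (hi (by simp) (by simp) c)
      simp only at this
      omega)
    (Nat.clog 2 n) univ (by simpa using Nat.le_pow_clog (by norm_num) n)
  refine ⟨S, fun u hu => (h2 u (mem_univ u)).resolve_left hu, ?_⟩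
  have a1 := Nat.pow_pred_clog_lt_self (b := 2) (by norm_num) (x := n) (by omega)
  have a2 : 0 < Nat.clog 2 n := Nat.clog_pos (by norm_num) (by omega)
  obtain ⟨j, hj⟩ : ∃ j, Nat.clog 2 n = j + 1 := ⟨_, (Nat.succ_pred_eq_of_pos a2).symm⟩
  rw [hj] at a1 h1
  simp only [Nat.pred_succ] at a1
  have a3 : j * Real.log 2 ≤ Real.log n := by
    rw [← Real.log_pow]
    exact Real.log_le_log (by positivity) (by exact_mod_cast a1.le)
  have a4 : Real.log 2 ≤ Real.log n := Real.log_le_log (by norm_num) (by exact_mod_cast hn)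
  have a5 : (S.card : ℝ) ≤ 2 * alpha E * (j + 1 + 1) := by exact_mod_cast h1
  refine a5.trans ?_
  rw [div_mul_eq_mul_div, div_mul_eq_mul_div, le_div_iff₀ l2]
  have a6 : (0 : ℝ) ≤ alpha E := by positivity
  nlinarith

end Pool.Agent.Results.MP_8fb7e7_co.Yes
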